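import Mathlib
import Pool.Agent.N290.RI.Stm
import Pool.Agent.N290.R5.Loc

/-!
Project RI, part D1: bounded solutions for dilated data.
-/

set_option autoImplicit false

open Complex MeasureTheory Set Filter Topology

namespace Pool.Agent.N2.RI

open Pool.Agent.N290.RI

theorem B_eq : B = Pool.Agent.N290.RC.B2 := rfl

theorem smul_eq (r : ℝ) (z : ℂ × ℂ) : r • z = (r : ℂ) • z := by
  ext <;> simp

theorem dil {f : ℂ × ℂ → ℂ} (hf : DifferentiableOn ℂ f B) {r : ℝ} (h0 : 0 ≤ r) (h1 : r < 1) :
    DifferentiableOn ℂ (fun z => f (r • z)) B := by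
  have h2 : DifferentiableOn ℂ (fun z : ℂ × ℂ => r • z) B := by
    have : (fun z : ℂ × ℂ => r • z) = fun z : ℂ × ℂ => (r : ℂ) • z := funext (smul_eq r)
    rw [this]
    exact (differentiable_id.const_smul (r : ℂ)).differentiableOn
  exact hf.comp h2 fun z hz => smul_mem_B hz h0 h1.le

/-- near a point of the closed ball where `f (r • p)` is large, it stays large -/
theorem near {f : ℂ × ℂ → ℂ} (hf : DifferentiableOn ℂ f B) {r c : ℝ} {p : ℂ × ℂ}
    (hp : r • p ∈ B) (hc : c < ‖f (r • p)‖) : ∃ ρ : ℝ, 0 < ρ ∧ ∀ z : ℂ × ℂ,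
      ‖z.1 - p.1‖ ^ 2 + ‖z.2 - p.2‖ ^ 2 < ρ ^ 2 → c < ‖f (r • z)‖ := by
  have h1 : ContinuousAt f (r • p) := (hf.continuousOn).continuousAt (B_open.mem_nhds hp)
  have h2 : ContinuousAt (fun z : ℂ × ℂ => ‖f (r • z)‖) p := by
    have h3 : ContinuousAt (fun z : ℂ × ℂ => r • z) p := by fun_prop
    exact (ContinuousAt.comp (f := fun z : ℂ × ℂ => r • z) h1 h3).norm
  have h4 : ∀ᶠ z in 𝓝 p, c < ‖f (r • z)‖ := h2.eventually_const_lt hc
  obtain ⟨ρ, hρ, h5⟩ := Metric.eventually_nhds_iff.1 h4
  refine ⟨ρ, hρ, fun z hz => h5 ?_⟩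
  have a1 : ‖z.1 - p.1‖ < ρ := by
    apply lt_of_pow_lt_pow_left₀ 2 hρ.le
    have := sq_nonneg ‖z.2 - p.2‖
    linarith
  have a2 : ‖z.2 - p.2‖ < ρ := by
    apply lt_of_pow_lt_pow_left₀ 2 hρ.le
    have := sq_nonneg ‖z.1 - p.1‖
    linarith
  rw [Prod.dist_eq, max_lt_iff, dist_eq_norm, dist_eq_norm]
  exact ⟨a1, a2⟩

/-- bounded solutions for dilated data -/
theorem D1 : Pool.Agent.N290.RI.D1 := by
  intro δ r f g hδ hr0 hr1 hf hg hf1 hg1 hfg
  have hF := dil hf hr0 hr1
  have hG := dil hg hr0 hr1
  have hmem : ∀ z ∈ B, r • z ∈ B := fun z hz => smul_mem_B hz hr0 hr1.le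
  obtain ⟨q, hq1, hq2⟩ := Pool.Agent.N290.R5.local_thm
    (f := ![fun z => f (r • z), fun z => g (r • z)])
    (by
      intro j
      fin_cases j
      · exact ⟨hF, 1, fun z hz => hf1 _ (hmem z hz)⟩
      · exact ⟨hG, 1, fun z hz => hg1 _ (hmem z hz)⟩)
    (by
      intro z hz
      by_contra hcon
      push Not at hcon
      have e0 : f (r • z) = 0 := hcon 0
      have e1 : g (r • z) = 0 := hcon 1
      have := hfg _ (hmem z hz)
      rw [e0, e1, norm_zero, add_zero] at this
      linarith)
    (by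
      intro p hp
      have hpB : r • p ∈ B := by
        rw [mem_B, N_smul]
        have : N p = 1 := hp
        rw [this, mul_one]
        exact pow_lt_one₀ hr0 hr1 two_ne_zero
      have h1 := hfg _ hpB
      have h2 : δ / 4 < ‖f (r • p)‖ ∨ δ / 4 < ‖g (r • p)‖ := by
        by_contra hcon
        push Not at hcon
        linarith [hcon.1, hcon.2]
      rcases h2 with h2 | h2
      · obtain ⟨ρ, hρ, hρ1⟩ := near hf hpB h2
        refine ⟨∅, fun _ _ => 0, ![fun z => (f (r • z))⁻¹, fun _ => 0], ρ, 1, 4 / δ, hρ, one_pos,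
          by simp, ?_, ?_⟩
        · intro l
          fin_cases l
          · refine DifferentiableOn.inv (hF.mono fun z hz => hz.1) fun z hz h0 => ?_
            have := hρ1 z hz.2.1
            rw [h0, norm_zero] at this
            linarith
          · exact differentiableOn_const 0
        · intro z hz hz1 _
          have h3 := hρ1 z hz1
          have h4 : f (r • z) ≠ 0 := fun h0 => by
            rw [h0, norm_zero] at h3
            linarith
          refine ⟨?_, ?_⟩
          · intro l
            fin_cases l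
            · show ‖(f (r • z))⁻¹‖ ≤ 4 / δ
              rw [norm_inv, inv_le_comm₀ (by positivity) (by positivity), inv_div]
              exact h3.le
            · show ‖(0 : ℂ)‖ ≤ 4 / δ
              rw [norm_zero]
              positivity
          · rw [Fin.sum_univ_two]
            show f (r • z) * (f (r • z))⁻¹ + g (r • z) * 0 = 1
            rw [mul_inv_cancel₀ h4, mul_zero, add_zero]
      · obtain ⟨ρ, hρ, hρ1⟩ := near hg hpB h2
        refine ⟨∅, fun _ _ => 0, ![fun _ => 0, fun z => (g (r • z))⁻¹], ρ, 1, 4 / δ, hρ, one_pos,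
          by simp, ?_, ?_⟩
        · intro l
          fin_cases l
          · exact differentiableOn_const 0
          · refine DifferentiableOn.inv (hG.mono fun z hz => hz.1) fun z hz h0 => ?_
            have := hρ1 z hz.2.1
            rw [h0, norm_zero] at this
            linarith
        · intro z hz hz1 _
          have h3 := hρ1 z hz1
          have h4 : g (r • z) ≠ 0 := fun h0 => by
            rw [h0, norm_zero] at h3
            linarith
          refine ⟨?_, ?_⟩
          · intro l
            fin_cases l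
            · show ‖(0 : ℂ)‖ ≤ 4 / δ
              rw [norm_zero]
              positivity
            · show ‖(g (r • z))⁻¹‖ ≤ 4 / δ
              rw [norm_inv, inv_le_comm₀ (by positivity) (by positivity), inv_div]
              exact h3.le
          · rw [Fin.sum_univ_two]
            show f (r • z) * 0 + g (r • z) * (g (r • z))⁻¹ = 1
            rw [mul_inv_cancel₀ h4, mul_zero, zero_add])
  obtain ⟨d0, M0, hM0⟩ := hq1 0
  obtain ⟨d1, M1, hM1⟩ := hq1 1
  refine ⟨q 0, q 1, max M0 M1, d0, d1, fun z hz => ⟨(hM0 z hz).trans (le_max_left _ _),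
    (hM1 z hz).trans (le_max_right _ _), ?_⟩⟩
  have h5 := hq2 z hz
  rw [Fin.sum_univ_two] at h5
  exact h5

end Pool.Agent.N2.RI
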